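import Mathlib
import Pool.Agent.P8H82.PH.Stm

set_option autoImplicit false

/-!
# Project PH, package CONV: convolution powers of a probability measure
-/

namespace Pool.Agent.P8H55.PH

open MeasureTheory Filter Topology
open Pool.Agent.P8H82.PH

theorem prob (μ : Measure ℝ) [IsProbabilityMeasure μ] : ∀ n, IsProbabilityMeasure (cpow μ n)
  | 0 => by unfold cpow; infer_instance
  | n + 1 => by
    have := prob μ n
    unfold cpow
    infer_instance

theorem one (μ : Measure ℝ) [IsProbabilityMeasure μ] : cpow μ 1 = μ := by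
  change Measure.conv (Measure.dirac 0) μ = μ
  exact Measure.dirac_zero_conv μ

theorem iic (μ : Measure ℝ) [IsProbabilityMeasure μ] (n : ℕ) (x : ℝ) :
    (cpow μ (n + 1)).real (Set.Iic x) = ∫ y, (cpow μ n).real (Set.Iic (x - y)) ∂μ := by
  have := prob μ n
  have hm : Measurable fun p : ℝ × ℝ => p.1 + p.2 := by fun_prop
  have hset : MeasurableSet ((fun p : ℝ × ℝ => p.1 + p.2) ⁻¹' Set.Iic x) := hm measurableSet_Iic
  have hpre : ∀ y : ℝ, (fun a : ℝ => (a, y)) ⁻¹' ((fun p : ℝ × ℝ => p.1 + p.2) ⁻¹' Set.Iic x) =
      Set.Iic (x - y) := by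
    intro y
    ext z
    simp [le_sub_iff_add_le]
  have hmeas : Measurable fun y : ℝ => (cpow μ n) (Set.Iic (x - y)) := by
    have := measurable_measure_prodMk_right (μ := cpow μ n) hset
    simpa only [hpre] using this
  have h : (cpow μ (n + 1)) (Set.Iic x) = ∫⁻ y, (cpow μ n) (Set.Iic (x - y)) ∂μ := by
    change (Measure.conv (cpow μ n) μ) _ = _
    rw [Measure.conv, Measure.map_apply hm measurableSet_Iic, Measure.prod_apply_symm hset]
    simp only [hpre]
  rw [Measure.real, h, integral_eq_lintegral_of_nonneg_ae]
  · congr 1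
    refine lintegral_congr fun y => ?_
    rw [Measure.real, ENNReal.ofReal_toReal (measure_ne_top _ _)]
  · exact Eventually.of_forall fun y => measureReal_nonneg
  · exact (hmeas.ennreal_toReal).aestronglyMeasurable

theorem cts (μ : Measure ℝ) [IsProbabilityMeasure μ]
    (hc : Continuous fun x => μ.real (Set.Iic x)) :
    ∀ n : ℕ, Continuous fun x => (cpow μ (n + 1)).real (Set.Iic x)
  | 0 => by rw [zero_add, one μ]; exact hc
  | n + 1 => by
    have ih := cts μ hc n
    have := prob μ (n + 1)
    have he : (fun x => (cpow μ (n + 1 + 1)).real (Set.Iic x)) =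
        fun x => ∫ y, (cpow μ (n + 1)).real (Set.Iic (x - y)) ∂μ := by
      funext x
      exact iic μ (n + 1) x
    rw [he]
    refine continuous_of_dominated (bound := fun _ => (1 : ℝ)) ?_ ?_ ?_ ?_
    · intro x
      exact (ih.comp (continuous_const.sub continuous_id)).aestronglyMeasurable
    · intro x
      refine Eventually.of_forall fun y => ?_
      rw [Real.norm_of_nonneg measureReal_nonneg]
      exact measureReal_le_one
    · exact integrable_const _
    · refine Eventually.of_forall fun y => ?_
      exact ih.comp (continuous_id.sub continuous_const)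

theorem pi_eq (μ : Measure ℝ) [IsProbabilityMeasure μ] :
    ∀ n : ℕ, cpow μ n = (Measure.pi fun _ : Fin n => μ).map fun y => ∑ k, y k
  | 0 => by
    rw [Measure.pi_of_empty _ (fun i => i.elim0), Measure.map_dirac' (by fun_prop)]
    simp [cpow]
  | n + 1 => by
    have ih := pi_eq μ n
    have := prob μ n
    change Measure.conv (cpow μ n) μ = _
    rw [Measure.conv_comm, ih, Measure.conv]
    have h1 : μ.prod (Measure.map (fun y : Fin n → ℝ => ∑ k, y k) (Measure.pi fun _ : Fin n => μ)) =
        Measure.map (Prod.map id fun y : Fin n → ℝ => ∑ k, y k)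
          (μ.prod (Measure.pi fun _ : Fin n => μ)) := by
      have := Measure.map_prod_map μ (Measure.pi fun _ : Fin n => μ) (f := id)
        (g := fun y : Fin n → ℝ => ∑ k, y k) measurable_id (by fun_prop)
      rw [Measure.map_id] at this
      exact this
    rw [h1, Measure.map_map (by fun_prop) (by fun_prop)]
    have h2 := (measurePreserving_piFinSuccAbove (fun _ : Fin (n + 1) => μ) 0).map_eq
    rw [← h2, Measure.map_map (by fun_prop) (by fun_prop)]
    congr 1
    funext y
    simp [Function.comp, MeasurableEquiv.piFinSuccAbove, Fin.sum_univ_succ, Fin.insertNthEquiv]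
    rfl

theorem conv : S_CONV := by
  intro μ hp hc
  have := hp
  exact ⟨one μ, prob μ, iic μ, cts μ hc, pi_eq μ⟩

end Pool.Agent.P8H55.PH
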