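import Mathlib
import Pool.Agent.P8H82.PH.Stm

set_option autoImplicit false

/-!
# Project PH, package FIN: the product law from the packages
-/

namespace Pool.Agent.P8H55.PH

open MeasureTheory Filter Topology
open Pool.Agent.P8H82.PH

theorem denNonneg (θ : ℝ) (n : ℕ) {Y : ℝ} (hY : 1 ≤ Y) : 0 ≤ Y ^ θ * Real.log Y ^ n :=
  mul_nonneg (Real.rpow_nonneg (by linarith) _) (pow_nonneg (Real.log_nonneg hY) _)

theorem denPos (θ : ℝ) (n : ℕ) {Y : ℝ} (hY : 1 < Y) : 0 < Y ^ θ * Real.log Y ^ n :=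
  mul_pos (Real.rpow_pos_of_pos (by linarith) _) (pow_pos (Real.log_pos hY) _)

theorem bound (F : ℝ → ℝ → ℝ) (M w : ℝ → ℝ) (θ c : ℝ) (n : ℕ) (hθ : 0 < θ) (hc : 0 ≤ c)
    (hw : ∀ z, 0 ≤ w z ∧ w z ≤ 1) (hM : Monotone M) (hF : ∀ Y z, 0 ≤ F Y z ∧ F Y z ≤ M Y)
    (h : ∀ ε : ℝ, 0 < ε → ∀ᶠ Y in atTop, ∀ z,
      |F Y z / (Y ^ θ * Real.log Y ^ n) - c * w z| ≤ ε) :
    ∀ ε : ℝ, 0 < ε → ∃ C : ℝ, ∀ Y : ℝ, 1 ≤ Y → ∀ z,
    |F Y z - c * w z * (Y ^ θ * Real.log Y ^ n)| ≤ ε * (Y ^ θ * Real.log Y ^ n) + C := by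
  intro ε hε
  obtain ⟨Y1, hY1⟩ := eventually_atTop.1 (h ε hε)
  have hY02 : (2 : ℝ) ≤ max Y1 2 := le_max_right _ _
  have hD0 : 0 ≤ (max Y1 2) ^ θ * Real.log (max Y1 2) ^ n := denNonneg θ n (by linarith)
  have hM0 : 0 ≤ M (max Y1 2) := (hF (max Y1 2) 0).1.trans (hF _ _).2
  have hC0 : 0 ≤ c * ((max Y1 2) ^ θ * Real.log (max Y1 2) ^ n) := mul_nonneg hc hD0
  refine ⟨M (max Y1 2) + c * ((max Y1 2) ^ θ * Real.log (max Y1 2) ^ n), fun Y hY z => ?_⟩
  have hD : 0 ≤ Y ^ θ * Real.log Y ^ n := denNonneg θ n hY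
  rcases le_total (max Y1 2) Y with h0 | h0
  · have h1 := hY1 Y (le_trans (le_max_left _ _) h0) z
    have hD' : 0 < Y ^ θ * Real.log Y ^ n := denPos θ n (by linarith)
    have h2 : F Y z - c * w z * (Y ^ θ * Real.log Y ^ n) =
        (F Y z / (Y ^ θ * Real.log Y ^ n) - c * w z) * (Y ^ θ * Real.log Y ^ n) := by
      rw [sub_mul, div_mul_cancel₀ _ hD'.ne']
    rw [h2, abs_mul, abs_of_pos hD']
    have h3 := mul_le_mul_of_nonneg_right h1 hD
    linarith
  · have hYθ : Y ^ θ ≤ (max Y1 2) ^ θ := Real.rpow_le_rpow (by linarith) h0 hθ.le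
    have hlog : Real.log Y ^ n ≤ Real.log (max Y1 2) ^ n :=
      pow_le_pow_left₀ (Real.log_nonneg hY) (Real.log_le_log (by linarith) h0) n
    have hDD : Y ^ θ * Real.log Y ^ n ≤ (max Y1 2) ^ θ * Real.log (max Y1 2) ^ n :=
      mul_le_mul hYθ hlog (pow_nonneg (Real.log_nonneg hY) _)
        (Real.rpow_nonneg (by linarith) _)
    have hFM := (hF Y z).2.trans (hM h0)
    have hF0 := (hF Y z).1
    have hcw : 0 ≤ c * w z := mul_nonneg hc (hw z).1
    have hcw1 : c * w z ≤ c := by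
      have := mul_le_mul_of_nonneg_left (hw z).2 hc
      linarith
    have h4 : c * w z * (Y ^ θ * Real.log Y ^ n) ≤
        c * ((max Y1 2) ^ θ * Real.log (max Y1 2) ^ n) := mul_le_mul hcw1 hDD hD hc
    have h5 : 0 ≤ c * w z * (Y ^ θ * Real.log Y ^ n) := mul_nonneg hcw hD
    have h6 : 0 ≤ ε * (Y ^ θ * Real.log Y ^ n) := mul_nonneg hε.le hD
    rw [abs_le]
    constructor <;> linarith

theorem tot_one {ι : Type} (N : ι → ℝ) (X : ℝ) : tot N 1 X = {i | N i ≤ X}.ncard := by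
  have h : {v : Fin 1 → ι | ∏ k, N (v k) ≤ X} = (fun i : ι => fun _ : Fin 1 => i) '' {i | N i ≤ X} := by
    ext v
    simp only [Set.mem_ofPred_eq, Set.mem_image, Fin.prod_univ_one]
    constructor
    · intro hv
      refine ⟨v 0, hv, ?_⟩
      funext k
      rw [Subsingleton.elim k 0]
    · rintro ⟨i, hi, rfl⟩
      exact hi
  rw [tot, h, Set.ncard_image_of_injective]
  intro i j hij
  exact congrFun hij 0

theorem cnt_one {ι : Type} (N h : ι → ℝ) (X x : ℝ) :
    cnt N h 1 X x = {i | N i ≤ X ∧ h i ≤ x}.ncard := by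
  have h' : {v : Fin 1 → ι | ∏ k, N (v k) ≤ X ∧ ∑ k, h (v k) ≤ x} =
      (fun i : ι => fun _ : Fin 1 => i) '' {i | N i ≤ X ∧ h i ≤ x} := by
    ext v
    simp only [Set.mem_ofPred_eq, Set.mem_image, Fin.prod_univ_one, Fin.sum_univ_one]
    constructor
    · intro hv
      refine ⟨v 0, hv, ?_⟩
      funext k
      rw [Subsingleton.elim k 0]
    · rintro ⟨i, hi, rfl⟩
      exact hi
  rw [cnt, h', Set.ncard_image_of_injective]
  intro i j hij
  exact congrFun hij 0

theorem cst (A θ : ℝ) (n : ℕ) (D : ℝ) :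
    A ^ (n + 1) * θ ^ n / n.factorial * (A * D) * θ / (n + 1) =
      A ^ (n + 1 + 1) * θ ^ (n + 1) / (n + 1).factorial * D := by
  rw [Nat.factorial_succ]
  have h1 : ((n.factorial : ℕ) : ℝ) ≠ 0 := by exact_mod_cast n.factorial_ne_zero
  have h2 : ((n : ℝ) + 1) ≠ 0 := by positivity
  push_cast
  field_simp
  ring

theorem ph : S_POLYA → S_WEAK → S_CNT → S_CONV → S_SUM → S_PH := by
  intro hPOLYA hWEAK hCNT hCONV hSUM ι N h θ A μ hF
  have hμ := hF.prob
  obtain ⟨hc1, hcp, hci, hcc, -⟩ := hCONV μ hF.prob hF.cts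
  have htotfin : ∀ (n : ℕ) (X : ℝ), {v : Fin n → ι | ∏ k, N (v k) ≤ X}.Finite := fun n X =>
    (hCNT ι N h hF.fin hF.one n X).1
  have hcntle : ∀ (n : ℕ) (X x : ℝ), cnt N h n X x ≤ tot N n X := fun n X x =>
    Set.ncard_le_ncard (fun v hv => hv.1) (htotfin n X)
  have hcntmono : ∀ (n : ℕ) (X : ℝ), Monotone (cnt N h n X) := fun n X x y hxy =>
    Set.ncard_le_ncard (fun v hv => ⟨hv.1, hv.2.trans hxy⟩)
      ((htotfin n X).subset fun v hv => hv.1)
  have htotmono : ∀ n : ℕ, Monotone (tot N n) := fun n X Y hXY =>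
    Set.ncard_le_ncard (fun v hv => le_trans hv hXY) (htotfin n Y)
  intro n
  induction n with
  | zero =>
    constructor
    · have := hF.tot
      simpa [tot_one] using this
    · intro x
      have := hF.law x
      simpa [cnt_one, hc1] using this
  | succ n ih =>
    obtain ⟨ihT, ihL⟩ := ih
    have hprob := hcp (n + 1)
    have hc0 : 0 ≤ A ^ (n + 1) * θ ^ n / n.factorial := by
      have := hF.Apos
      have := hF.θpos
      positivity
    have hGr : ∀ x, (cpow μ (n + 1)).real (Set.Iic x) = ProbabilityTheory.cdf (cpow μ (n + 1)) x :=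
      fun x => (ProbabilityTheory.cdf_eq_real _ x).symm
    have hGmono : Monotone fun x => (cpow μ (n + 1)).real (Set.Iic x) := by
      intro x y hxy
      exact measureReal_mono (Set.Iic_subset_Iic.2 hxy)
    have hG01 : ∀ z, 0 ≤ (cpow μ (n + 1)).real (Set.Iic z) ∧
        (cpow μ (n + 1)).real (Set.Iic z) ≤ 1 := fun z => ⟨measureReal_nonneg, measureReal_le_one⟩
    have hbot : Tendsto (fun x => (cpow μ (n + 1)).real (Set.Iic x)) atBot (𝓝 0) := by
      simp only [hGr]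
      exact ProbabilityTheory.tendsto_cdf_atBot _
    have htop : Tendsto (fun x => (cpow μ (n + 1)).real (Set.Iic x)) atTop (𝓝 1) := by
      simp only [hGr]
      exact ProbabilityTheory.tendsto_cdf_atTop _
    have hP := hPOLYA (fun X z => (cnt N h (n + 1) X z : ℝ) / (X ^ θ * Real.log X ^ n))
      (fun X => (tot N (n + 1) X : ℝ) / (X ^ θ * Real.log X ^ n))
      (fun x => (cpow μ (n + 1)).real (Set.Iic x)) (A ^ (n + 1) * θ ^ n / n.factorial) hc0
      (hcc n) hGmono hbot htop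
      (by
        filter_upwards [eventually_gt_atTop (1 : ℝ)] with X hX
        have hD := denPos θ n hX
        refine ⟨fun z w hzw => ?_, fun z => ⟨by positivity, ?_⟩⟩
        · exact div_le_div_of_nonneg_right (by exact_mod_cast hcntmono _ _ hzw) hD.le
        · exact div_le_div_of_nonneg_right (by exact_mod_cast hcntle _ _ _) hD.le)
      ihT ihL
    have hTm : Monotone fun Y => (tot N (n + 1) Y : ℝ) := fun X Y hXY =>
      Nat.cast_le.2 (htotmono _ hXY)
    have hB1 := bound (fun Y z => (cnt N h (n + 1) Y z : ℝ)) (fun Y => (tot N (n + 1) Y : ℝ))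
      (fun x => (cpow μ (n + 1)).real (Set.Iic x)) θ (A ^ (n + 1) * θ ^ n / n.factorial) n
      hF.θpos hc0 hG01 hTm
      (fun Y z => ⟨by positivity, by exact_mod_cast hcntle _ _ _⟩) hP
    have hB2 := bound (fun Y _ => (tot N (n + 1) Y : ℝ)) (fun Y => (tot N (n + 1) Y : ℝ))
      (fun _ => 1) θ (A ^ (n + 1) * θ ^ n / n.factorial) n
      hF.θpos hc0 (fun z => ⟨zero_le_one, le_refl _⟩) hTm
      (fun Y z => ⟨by positivity, le_refl _⟩)
      (by
        intro ε hε
        have := (Metric.tendsto_nhds.1 ihT) ε hε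
        filter_upwards [this] with Y hY z
        rw [Real.dist_eq] at hY
        simpa using hY.le)
    constructor
    · have hone : Tendsto (fun X : ℝ => (∑ i ∈ (hF.fin X).toFinset, (1 : ℝ)) / X ^ θ) atTop
          (𝓝 A) := by
        refine hF.tot.congr fun X => ?_
        rw [Finset.sum_const, nsmul_eq_mul, mul_one, Set.ncard_eq_toFinset_card _ (hF.fin X)]
      have hS := hSUM ι N h θ A A (A ^ (n + 1) * θ ^ n / n.factorial) 0 n hF.fin
        (fun Y _ => (tot N (n + 1) Y : ℝ)) (fun _ => 1) hF.one hF.θpos hc0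
        (fun _ => zero_le_one) hB2 hF.tot hone
      have he := cst A θ n 1
      rw [mul_one, mul_one] at he
      rw [he] at hS
      refine hS.congr fun X => ?_
      rw [(hCNT ι N h hF.fin hF.one (n + 1) X).2.1]
      push_cast
      rfl
    · intro x
      have hW := hWEAK ι N h θ A μ hF (fun x => (cpow μ (n + 1)).real (Set.Iic x)) (hcc n) hGmono
        hG01 x
      have hS := hSUM ι N h θ A _ (A ^ (n + 1) * θ ^ n / n.factorial) x n hF.fin
        (fun Y z => (cnt N h (n + 1) Y z : ℝ)) (fun x => (cpow μ (n + 1)).real (Set.Iic x)) hF.one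
        hF.θpos hc0 (fun z => (hG01 z).1) hB1 hF.tot hW
      rw [cst A θ n] at hS
      rw [hci (n + 1) x]
      refine hS.congr fun X => ?_
      rw [(hCNT ι N h hF.fin hF.one (n + 1) X).2.2 x]
      push_cast
      rfl

end Pool.Agent.P8H55.PH
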